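import Mathlib

namespace Pool.Agent.Results.MP_9d9710_co.No

/-- The residues `1, ..., (p-1)/2`. -/
def P (p : ℕ) : Set (ZMod p) := {y | 1 ≤ y.val ∧ y.val ≤ (p - 1) / 2}

/-- Vectors with one coordinate `0`, one in `P` and one in `-P`. -/
def S (p : ℕ) : Set (Fin 3 → ZMod p) :=
  {x | ∃ σ : Equiv.Perm (Fin 3), x (σ 0) = 0 ∧ x (σ 1) ∈ P p ∧ -x (σ 2) ∈ P p}

/-- For every odd prime there is an `S`-free set with `p ^ 2` elements. -/
theorem result (p : ℕ) (hp : p.Prime) (_h2 : p ≠ 2) : ∃ A : Finset (Fin 3 → ZMod p),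
    A.card = p ^ 2 ∧ ∀ a ∈ A, ∀ b ∈ A, a - b ∉ S p := by
  classical
  haveI : NeZero p := ⟨hp.ne_zero⟩
  refine ⟨Finset.univ.image fun t : ZMod p × ZMod p => ![t.1, t.1, t.2], ?_, ?_⟩
  · rw [Finset.card_image_of_injective]
    · simp [sq]
    · intro s t h
      exact Prod.ext (congrFun h 0) (congrFun h 2)
  intro a ha b hb ⟨σ, h0, h1, h2⟩
  obtain ⟨s, -, rfl⟩ := Finset.mem_image.1 ha
  obtain ⟨t, -, rfl⟩ := Finset.mem_image.1 hb
  obtain ⟨x, hx⟩ : ∃ x : Fin 3 → ZMod p, x = ![s.1, s.1, s.2] - ![t.1, t.1, t.2] := ⟨_, rfl⟩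
  rw [← hx] at h0 h1 h2
  have e : x 0 = x 1 := by rw [hx]; rfl
  have z : (0 : ZMod p) ∉ P p := fun h => by simpa using h.1
  have n01 : x (σ 0) ≠ x (σ 1) := fun h => z (by rwa [← h, h0] at h1)
  have n02 : x (σ 0) ≠ x (σ 2) := fun h => z (by rwa [← h, h0, neg_zero] at h2)
  have n12 : x (σ 1) ≠ x (σ 2) := fun h => by
    rw [← h] at h2
    have k : x (σ 1) ≠ 0 := fun k => z (k ▸ h1)
    have := h2.2
    rw [ZMod.neg_val, if_neg k] at this
    have := h1.2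
    have := hp.pos
    omega
  have k : x (σ (σ.symm 0)) = x (σ (σ.symm 1)) := by simpa using e
  have ne : σ.symm 0 ≠ σ.symm 1 := σ.symm.injective.ne (by decide)
  generalize σ.symm 0 = i at k ne
  generalize σ.symm 1 = j at k ne
  fin_cases i <;> fin_cases j <;> simp_all

end Pool.Agent.Results.MP_9d9710_co.No
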